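import Pool.Agent.H95.HD.RAT

/-!
MP_ee74d2_an, theorem HD: CMB, affine functions with many values near few points have few
differences.
-/

set_option autoImplicit false

namespace Pool.Agent.H95.HD

open Pool.Agent.H82.HD

open scoped Pointwise

open scoped Classical in
/-- a slice at the time `t`, via paths of length three -/
lemma slice (hPTH : T_PTH) {ι : Type} [Fintype ι] {τ : Type} (TT1 : Finset τ)
    (P V : τ → ι → ℝ) (Y A B A' B' : Finset (ι → ℤ)) (G : Finset ((ι → ℤ) × (ι → ℤ)))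
    (f g : τ → ι → ℤ) (x h t : ℤ) (N k E L u : ℝ)
    (hN : 0 < N) (hk : 0 < k) (hE : 1 ≤ E) (hL : 1 ≤ L) (hu1 : L⁻¹ ≤ |u|)
    (hu2 : L⁻¹ ≤ |1 - u|) (hu3 : |u| ≤ L + 1) (hu4 : |1 - u| ≤ L + 1)
    (hY : (Y.card : ℝ) ≤ N) (hut : u * h = t - x)
    (hG : ∀ e ∈ G, ∃ T ∈ TT1, (f T, g T) = e)
    (hf : ∀ T ∈ TT1, ∀ i, |P T i + x * V T i - f T i| ≤ E)
    (hg : ∀ T ∈ TT1, ∀ i, |P T i + (x + h : ℤ) * V T i - g T i| ≤ E)
    (hz : ∀ T ∈ TT1, ∃ z ∈ Y, ∀ i, |P T i + t * V T i - z i| ≤ E)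
    (hpath : ∀ a ∈ A', ∀ b ∈ B', N ^ 2 ≤ k *
      (((B ×ˢ A).filter fun p => (a, p.1) ∈ G ∧ (p.2, p.1) ∈ G ∧ (p.2, b) ∈ G).card : ℝ)) :
    ((sl u A' B').card : ℝ) ≤ k * (10 * (8 * L * E) * L) ^ (3 * Fintype.card ι) * N := by
  have hLE : 1 ≤ L * E := one_le_mul_of_one_le_of_one_le hL hE
  refine hPTH ι A B Y A' B' G N k (8 * L * E) L u hN hk (by nlinarith) hL hu1 hu2 hY ?_ hpath
  intro e he
  obtain ⟨T, hT, rfl⟩ := hG e he
  obtain ⟨z, hzY, hz1⟩ := hz T hT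
  refine ⟨z, hzY, fun i => ?_⟩
  have h1 := hf T hT i
  have h2 := hg T hT i
  have h3 := hz1 i
  have e1 : (1 - u) * (f T i : ℝ) + u * (g T i : ℝ) - z i =
      -((1 - u) * (P T i + x * V T i - f T i)) -
        u * (P T i + (x + h : ℤ) * V T i - g T i) + (P T i + t * V T i - z i) := by
    have : (t : ℝ) = u * h + x := by linarith
    rw [this]; push_cast; ring
  rw [e1]
  have h4 : |(1 - u) * (P T i + x * V T i - f T i)| ≤ (L + 1) * E := by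
    rw [abs_mul]; exact mul_le_mul hu4 h1 (abs_nonneg _) (by linarith)
  have h5 : |u * (P T i + (x + h : ℤ) * V T i - g T i)| ≤ (L + 1) * E := by
    rw [abs_mul]; exact mul_le_mul hu3 h2 (abs_nonneg _) (by linarith)
  have h6 : (L + 1) * E + (L + 1) * E + E ≤ 8 * L * E := by nlinarith
  rw [abs_le] at h3 h4 h5 ⊢
  constructor <;> linarith [h3.1, h3.2, h4.1, h4.2, h5.1, h5.2]

lemma ratio_ge (L J v h : ℝ) (hL : 0 < L) (hv : L⁻¹ * J ≤ |v|) (hh : |h| ≤ J)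
    (hh0 : 0 < |h|) : L⁻¹ ≤ |v / h| := by
  rw [abs_div, le_div_iff₀ hh0]
  exact (mul_le_mul_of_nonneg_left hh (by positivity)).trans hv

lemma ratio_le (L J v h : ℝ) (hL : 0 < L) (hv : |v| ≤ J) (hh : L⁻¹ * J ≤ |h|)
    (hh0 : 0 < |h|) : |v / h| ≤ L := by
  rw [abs_div, div_le_iff₀ hh0]
  calc |v| ≤ J := hv
    _ = L * (L⁻¹ * J) := by field_simp
    _ ≤ L * |h| := mul_le_mul_of_nonneg_left hh hL.le

lemma fibre_bound {α τ : Type} [DecidableEq α] (TT1 : Finset τ) (F : τ → α) (μ : ℝ)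
    (h : ∀ e, ((TT1.filter fun T => F T = e).card : ℝ) ≤ μ) :
    (TT1.card : ℝ) ≤ μ * ((TT1.image F).card : ℝ) := by
  have h1 := Finset.card_eq_sum_card_image F TT1
  have h2 : (TT1.card : ℝ) =
      ∑ e ∈ TT1.image F, ((TT1.filter fun T => F T = e).card : ℝ) := by
    exact_mod_cast h1
  rw [h2]
  calc ∑ e ∈ TT1.image F, ((TT1.filter fun T => F T = e).card : ℝ)
      ≤ ∑ _e ∈ TT1.image F, μ := Finset.sum_le_sum fun e _ => h e
    _ = μ * ((TT1.image F).card : ℝ) := by rw [Finset.sum_const, nsmul_eq_mul, mul_comm]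

/-- the constants -/
lemma consts (C0 D : ℕ) (hC0 : 1 ≤ C0) (κ E μ K : ℝ) (hκ : 0 < κ) (hκ1 : κ ≤ 1)
    (hE : 1 ≤ E) (hμ : 1 ≤ μ) (hK : 1 ≤ K) :
    2 ^ 9 / κ ^ 6 * μ * (16 * (2 ^ 33 * μ * K / κ ^ 18) ^ 2) ≤
      (K * μ * (((400 * C0 : ℕ) : ℝ) * E / κ) ^ (D + 1)) ^ (400 * C0) ∧
    (7 * E) ^ D * (((2 ^ 17 * (2 ^ 33 * μ * K / κ ^ 18) ^ 7) *
      (10 * (8 * (2 ^ 14 / κ ^ 6) * E) * (2 ^ 14 / κ ^ 6)) ^ (3 * D)) *
        ((C0 : ℝ) * (2 ^ 14 / κ ^ 6)) ^ D) ^ C0 * (2 ^ 12 / κ ^ 6) ≤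
      (K * μ * (((400 * C0 : ℕ) : ℝ) * E / κ) ^ (D + 1)) ^ (400 * C0) := by
  have hC : (1 : ℝ) ≤ C0 := by exact_mod_cast hC0
  set X := K * μ with hX
  have hX1 : 1 ≤ X := one_le_mul_of_one_le_of_one_le hK hμ
  set Z := ((400 * C0 : ℕ) : ℝ) * E / κ with hZ
  have hκi : 1 ≤ 1 / κ := by rw [le_div_iff₀ hκ]; linarith
  have hκi0 : 0 < 1 / κ := by positivity
  have hZe : Z = 400 * C0 * E * (1 / κ) := by rw [hZ]; push_cast; ring
  have hCE : (C0 : ℝ) ≤ C0 * E := le_mul_of_one_le_right (by linarith) hE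
  have hEC : E ≤ C0 * E := le_mul_of_one_le_left (by linarith) hC
  have hCE1 : 1 ≤ (C0 : ℝ) * E := by linarith
  -- basic bounds
  have b1 : 2 * (1 / κ) ≤ Z := by
    rw [hZe]; exact mul_le_mul_of_nonneg_right (by nlinarith) hκi0.le
  have b2 : 80 * E ≤ Z := by
    rw [hZe]
    calc 80 * E ≤ 400 * C0 * E := by nlinarith
      _ = 400 * C0 * E * 1 := by ring
      _ ≤ 400 * C0 * E * (1 / κ) := mul_le_mul_of_nonneg_left hκi (by positivity)
  have b3 : (C0 : ℝ) ≤ Z := by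
    rw [hZe]
    calc (C0 : ℝ) ≤ 400 * C0 * E := by nlinarith
      _ = 400 * C0 * E * 1 := by ring
      _ ≤ 400 * C0 * E * (1 / κ) := mul_le_mul_of_nonneg_left hκi (by positivity)
  have hZ1 : 1 ≤ Z := by linarith
  have hZ2 : 2 ≤ Z := by linarith
  have hZ0 : 0 < Z := by linarith
  have hpow : ∀ m n : ℕ, n ≤ m → 2 ^ m / κ ^ n ≤ Z ^ m := by
    intro m n hnm
    calc (2 : ℝ) ^ m / κ ^ n = 2 ^ m * (1 / κ) ^ n := by
          rw [one_div, inv_pow, div_eq_mul_inv]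
      _ ≤ 2 ^ m * (1 / κ) ^ m :=
          mul_le_mul_of_nonneg_left (pow_le_pow_right₀ hκi hnm) (by positivity)
      _ = (2 * (1 / κ)) ^ m := by rw [mul_pow]
      _ ≤ Z ^ m := pow_le_pow_left₀ (by positivity) b1 m
  set W := Z ^ (D + 1) with hW
  have hW1 : 1 ≤ W := one_le_pow₀ hZ1
  have hZW : ∀ m : ℕ, Z ^ m ≤ W ^ m := by
    intro m
    rw [hW, ← pow_mul]
    exact pow_le_pow_right₀ hZ1 (Nat.le_mul_of_pos_left m (Nat.succ_pos D))
  have hZW2 : ∀ m : ℕ, Z ^ (m * D) ≤ W ^ m := by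
    intro m
    rw [hW, ← pow_mul]
    exact pow_le_pow_right₀ hZ1 (by nlinarith)
  have hXW : 1 ≤ X * W := one_le_mul_of_one_le_of_one_le hX1 hW1
  have hfin : ∀ p q : ℕ, p ≤ 400 * C0 → q ≤ 400 * C0 → X ^ p * W ^ q ≤ (X * W) ^ (400 * C0) := by
    intro p q hp hq
    rw [mul_pow X W]
    exact mul_le_mul (pow_le_pow_right₀ hX1 hp) (pow_le_pow_right₀ hW1 hq) (by positivity)
      (by positivity)
  have hK3 : 2 ^ 33 * μ * K / κ ^ 18 ≤ X * Z ^ 33 := by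
    have := hpow 33 18 (by norm_num)
    calc 2 ^ 33 * μ * K / κ ^ 18 = X * (2 ^ 33 / κ ^ 18) := by rw [hX]; ring
      _ ≤ X * Z ^ 33 := mul_le_mul_of_nonneg_left this (by linarith)
  have hK30 : 0 < 2 ^ 33 * μ * K / κ ^ 18 := by positivity
  set K3 := 2 ^ 33 * μ * K / κ ^ 18 with hK3def
  constructor
  · have c1 := hpow 13 6 (by norm_num)
    have hμX : μ ≤ X := by rw [hX]; exact le_mul_of_one_le_left (by linarith) hK
    calc 2 ^ 9 / κ ^ 6 * μ * (16 * K3 ^ 2) = (2 ^ 13 / κ ^ 6) * μ * K3 ^ 2 := by ring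
      _ ≤ Z ^ 13 * X * (X * Z ^ 33) ^ 2 :=
          mul_le_mul (mul_le_mul c1 hμX (by linarith) (by positivity))
            (pow_le_pow_left₀ hK30.le hK3 2) (by positivity) (by positivity)
      _ = X ^ 3 * Z ^ 79 := by ring
      _ ≤ X ^ 3 * W ^ 79 := mul_le_mul_of_nonneg_left (hZW 79) (by positivity)
      _ ≤ (X * W) ^ (400 * C0) := hfin 3 79 (by omega) (by omega)
  · have hL := hpow 14 6 (by norm_num)
    have hL0 : 0 < 2 ^ 14 / κ ^ 6 := by positivity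
    set L := 2 ^ 14 / κ ^ 6 with hLdef
    have hN := hpow 12 6 (by norm_num)
    have c1 : 10 * (8 * L * E) * L ≤ Z ^ 29 := by
      calc 10 * (8 * L * E) * L = (80 * E) * L ^ 2 := by ring
        _ ≤ Z * (Z ^ 14) ^ 2 :=
            mul_le_mul b2 (pow_le_pow_left₀ hL0.le hL 2) (by positivity) hZ0.le
        _ = Z ^ 29 := by ring
    have c2 : (10 * (8 * L * E) * L) ^ (3 * D) ≤ W ^ 87 := by
      calc (10 * (8 * L * E) * L) ^ (3 * D) ≤ (Z ^ 29) ^ (3 * D) :=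
            pow_le_pow_left₀ (by positivity) c1 _
        _ = Z ^ (87 * D) := by rw [← pow_mul]; ring_nf
        _ ≤ W ^ 87 := hZW2 87
    have c3 : 2 ^ 17 * K3 ^ 7 ≤ X ^ 7 * W ^ 248 := by
      have c0 : (2 : ℝ) ^ 17 ≤ Z ^ 17 := pow_le_pow_left₀ (by norm_num) hZ2 17
      calc 2 ^ 17 * K3 ^ 7 ≤ Z ^ 17 * (X * Z ^ 33) ^ 7 :=
            mul_le_mul c0 (pow_le_pow_left₀ hK30.le hK3 7) (by positivity) (by positivity)
        _ = X ^ 7 * Z ^ 248 := by ring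
        _ ≤ X ^ 7 * W ^ 248 := mul_le_mul_of_nonneg_left (hZW 248) (by positivity)
    have c4 : (C0 : ℝ) * L ≤ Z ^ 15 := by
      calc (C0 : ℝ) * L ≤ Z * Z ^ 14 := mul_le_mul b3 hL hL0.le hZ0.le
        _ = Z ^ 15 := by ring
    have c5 : ((C0 : ℝ) * L) ^ D ≤ W ^ 15 := by
      calc ((C0 : ℝ) * L) ^ D ≤ (Z ^ 15) ^ D := pow_le_pow_left₀ (by positivity) c4 _
        _ = Z ^ (15 * D) := by rw [← pow_mul]
        _ ≤ W ^ 15 := hZW2 15
    have c6 : (7 * E) ^ D ≤ W := by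
      calc (7 * E) ^ D ≤ Z ^ D := pow_le_pow_left₀ (by positivity) (by linarith) _
        _ = Z ^ (1 * D) := by rw [one_mul]
        _ ≤ W ^ 1 := hZW2 1
        _ = W := pow_one W
    have c7 : 2 ^ 17 * K3 ^ 7 * (10 * (8 * L * E) * L) ^ (3 * D) * ((C0 : ℝ) * L) ^ D ≤
        X ^ 7 * W ^ 350 := by
      calc 2 ^ 17 * K3 ^ 7 * (10 * (8 * L * E) * L) ^ (3 * D) * ((C0 : ℝ) * L) ^ D
          ≤ X ^ 7 * W ^ 248 * W ^ 87 * W ^ 15 :=
            mul_le_mul (mul_le_mul c3 c2 (by positivity) (by positivity)) c5 (by positivity)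
              (by positivity)
        _ = X ^ 7 * W ^ 350 := by ring
    calc (7 * E) ^ D * (2 ^ 17 * K3 ^ 7 * (10 * (8 * L * E) * L) ^ (3 * D) *
          ((C0 : ℝ) * L) ^ D) ^ C0 * (2 ^ 12 / κ ^ 6)
        ≤ W * (X ^ 7 * W ^ 350) ^ C0 * W ^ 12 :=
          mul_le_mul (mul_le_mul c6 (pow_le_pow_left₀ (by positivity) c7 C0) (by positivity)
            (by positivity)) (hN.trans (hZW 12)) (by positivity) (by positivity)
      _ = X ^ (7 * C0) * W ^ (350 * C0 + 13) := by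
          rw [mul_pow (X ^ 7), ← pow_mul, ← pow_mul, pow_add W]; ring
      _ ≤ (X * W) ^ (400 * C0) := hfin _ _ (by omega) (by omega)

open scoped Classical in
theorem pf_CMB (hPAT : T_PAT) (hBSG : T_BSG) (hPTH : T_PTH) (hADD : T_ADD) : T_CMB := by
  obtain ⟨C0, hC0, hADD⟩ := hADD
  refine ⟨400 * C0, by omega, ?_⟩
  intro ι _ τ TT P V S I Y J κ Θ E μ K hJ hκ hκ1 hκJ hΘ hE hμ hK hI hS hY hsum hfib hTT
  set D := Fintype.card ι with hD
  have hTpos : 0 < (TT.card : ℝ) := by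
    by_contra h
    have h0 : (TT.card : ℝ) = 0 := le_antisymm (not_lt.1 h) (by positivity)
    rw [h0, mul_zero] at hTT
    nlinarith
  have hTne : TT.Nonempty := by
    rw [← Finset.card_pos]; exact_mod_cast hTpos
  obtain ⟨x, h, y, y', hx, hsep, hT1⟩ := hPAT τ TT S I (fun u => ((Y u).card : ℝ)) J κ Θ hTne hJ
    hκ hκ1 hκJ (by linarith) hI (fun u _ => by positivity) hsum hS
  set TT1 := TT.filter fun T => ({x, x + h, y, y + h, y', y' + h} : Finset ℤ) ⊆ S T with hTT1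
  set N := 2 ^ 12 / κ ^ 6 * Θ with hN
  set L := 2 ^ 14 / κ ^ 6 with hL
  have hκ6 : κ ^ 6 ≤ 1 := pow_le_one₀ hκ.le hκ1
  have hκ60 : 0 < κ ^ 6 := by positivity
  have hL1 : 1 ≤ L := by
    rw [hL, le_div_iff₀ hκ60]; linarith
  have hL0 : 0 < L := by linarith
  have hLi : L⁻¹ = κ ^ 6 / 2 ^ 14 := by rw [hL, inv_div]
  have hN0 : 0 < N := by positivity
  -- membership
  have mx := hx x (by simp)
  have mxh := hx (x + h) (by simp)
  have my := hx y (by simp)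
  have myh := hx (y + h) (by simp)
  have my' := hx y' (by simp)
  have myh' := hx (y' + h) (by simp)
  have sh := hsep h (by simp)
  have s1 := hsep (y - x) (by simp)
  have s2 := hsep (y' - x) (by simp)
  have s3 := hsep (y - y') (by simp)
  have s4 := hsep (y - x - h) (by simp)
  have s5 := hsep (y - x + h) (by simp)
  have s6 := hsep (y' - x - h) (by simp)
  have s7 := hsep (y' - x + h) (by simp)
  rw [← hLi] at sh s1 s2 s3 s4 s5 s6 s7
  have hJL : 0 < L⁻¹ * J := by positivity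
  have hh0 : 0 < |(h : ℝ)| := lt_of_lt_of_le hJL sh
  have hhne : (h : ℝ) ≠ 0 := abs_pos.1 hh0
  have hhJ : |(h : ℝ)| ≤ J := by
    have := hI (x + h) mxh.1 x mx.1
    push_cast at this
    rwa [add_sub_cancel_left] at this
  have hyxJ : |((y - x : ℤ) : ℝ)| ≤ J := by push_cast; exact hI y my.1 x mx.1
  have hyxJ' : |((y' - x : ℤ) : ℝ)| ≤ J := by push_cast; exact hI y' my'.1 x mx.1
  -- choices
  have hch : ∀ (u : ℤ) (T : τ), ∃ z : ι → ℤ, T ∈ TT → u ∈ S T →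
      z ∈ Y u ∧ ∀ i, |P T i + u * V T i - z i| ≤ E := by
    intro u T
    by_cases hT : T ∈ TT
    · by_cases hu : u ∈ S T
      · obtain ⟨z, hz, hz2⟩ := hY T hT u hu
        exact ⟨z, fun _ _ => ⟨hz, hz2⟩⟩
      · exact ⟨0, fun _ h => absurd h hu⟩
    · exact ⟨0, fun h => absurd h hT⟩
  choose F hF using hch
  have hsub : ∀ T ∈ TT1, T ∈ TT ∧ x ∈ S T ∧ x + h ∈ S T ∧ y ∈ S T ∧ y + h ∈ S T ∧
      y' ∈ S T ∧ y' + h ∈ S T := by
    intro T hT
    rw [hTT1, Finset.mem_filter] at hT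
    refine ⟨hT.1, hT.2 (by simp), hT.2 (by simp), hT.2 (by simp), hT.2 (by simp),
      hT.2 (by simp), hT.2 (by simp)⟩
  set G := TT1.image fun T => (F x T, F (x + h) T) with hG
  have hGsub : G ⊆ Y x ×ˢ Y (x + h) := by
    intro e he
    obtain ⟨T, hT, rfl⟩ := Finset.mem_image.1 he
    obtain ⟨hT0, hTx, hTxh, -⟩ := hsub T hT
    exact Finset.mem_product.2 ⟨(hF x T hT0 hTx).1, (hF (x + h) T hT0 hTxh).1⟩
  -- fibres
  have hGf : (TT1.card : ℝ) ≤ μ * (G.card : ℝ) := by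
    refine fibre_bound TT1 (fun T => (F x T, F (x + h) T)) μ fun e => ?_
    rcases (TT1.filter fun T => (F x T, F (x + h) T) = e).eq_empty_or_nonempty with h0 | h0
    · rw [h0]; simp; linarith
    · obtain ⟨T0, hT0⟩ := h0
      rw [Finset.mem_filter] at hT0
      obtain ⟨hT01, rfl⟩ := hT0
      obtain ⟨hT0a, hT0x, hT0xh, -⟩ := hsub T0 hT01
      have hle := hfib x mx.1 (x + h) mxh.1 (by
        rw [← hLi]; push_cast
        rw [show (x : ℝ) - (x + h) = -(h : ℝ) by ring, abs_neg]; exact sh)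
        _ (hF x T0 hT0a hT0x).1 _ (hF (x + h) T0 hT0a hT0xh).1
      refine le_trans ?_ hle
      have : (TT1.filter fun T => (F x T, F (x + h) T) = (F x T0, F (x + h) T0)) ⊆
          TT.filter fun T => (∀ i, |P T i + x * V T i - F x T0 i| ≤ E) ∧
            ∀ i, |P T i + (x + h : ℤ) * V T i - F (x + h) T0 i| ≤ E := by
        intro T hT
        rw [Finset.mem_filter, Prod.mk.injEq] at hT
        obtain ⟨hT1', e1, e2⟩ := hT
        obtain ⟨hTa, hTx, hTxh, -⟩ := hsub T hT1'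
        rw [Finset.mem_filter]
        refine ⟨hTa, ?_, ?_⟩
        · rw [← e1]; exact (hF x T hTa hTx).2
        · rw [← e2]; exact (hF (x + h) T hTa hTxh).2
      exact Nat.cast_le.2 (Finset.card_le_card this)
  set K3 := 2 ^ 33 * μ * K / κ ^ 18 with hK3
  have hK31 : 1 ≤ K3 := by
    rw [hK3, le_div_iff₀ (by positivity)]
    have h18 : κ ^ 18 ≤ 1 := pow_le_one₀ hκ.le hκ1
    have : 1 ≤ μ * K := one_le_mul_of_one_le_of_one_le hμ hK
    nlinarith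
  have hNG : N ^ 2 ≤ K3 * (G.card : ℝ) := by
    have e1 : (TT.card : ℝ) ≤ 2 ^ 9 / κ ^ 6 * (μ * (G.card : ℝ)) := by
      have : κ ^ 6 / 2 ^ 9 * (TT.card : ℝ) ≤ μ * (G.card : ℝ) := hT1.trans hGf
      rw [div_mul_eq_mul_div, le_div_iff₀ hκ60]
      rw [div_mul_eq_mul_div, div_le_iff₀ (by norm_num)] at this
      linarith
    have e2 : Θ ^ 2 ≤ K * (2 ^ 9 / κ ^ 6 * (μ * (G.card : ℝ))) :=
      hTT.trans (mul_le_mul_of_nonneg_left e1 (by linarith))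
    calc N ^ 2 = (2 ^ 12 / κ ^ 6) ^ 2 * Θ ^ 2 := by rw [hN, mul_pow]
      _ ≤ (2 ^ 12 / κ ^ 6) ^ 2 * (K * (2 ^ 9 / κ ^ 6 * (μ * (G.card : ℝ)))) :=
          mul_le_mul_of_nonneg_left e2 (by positivity)
      _ = K3 * (G.card : ℝ) := by rw [hK3]; field_simp
  obtain ⟨A', hA', B', hB', hBS1o, hBS2o⟩ := hBSG _ _ (Y x) (Y (x + h)) G N K3 hK31 hN0 hGsub
    mx.2 mxh.2 hNG
  have hBS1 : N ^ 2 ≤ 16 * K3 ^ 2 *
      ((G.filter fun e => e.1 ∈ A' ∧ e.2 ∈ B').card : ℝ) := by convert hBS1o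
  have hBS2 : ∀ a ∈ A', ∀ b ∈ B', N ^ 2 ≤ 2 ^ 17 * K3 ^ 7 *
      (((Y (x + h) ×ˢ Y x).filter fun p =>
        (a, p.1) ∈ G ∧ (p.2, p.1) ∈ G ∧ (p.2, b) ∈ G).card : ℝ) := by
    intro a ha b hb
    convert hBS2o a ha b hb
  clear hBS1o hBS2o
  have hA'N : (A'.card : ℝ) ≤ N :=
    le_trans (by exact_mod_cast Finset.card_le_card hA') mx.2
  have hB'N : (B'.card : ℝ) ≤ N :=
    le_trans (by exact_mod_cast Finset.card_le_card hB') mxh.2
  set G' := G.filter fun e => e.1 ∈ A' ∧ e.2 ∈ B' with hG'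
  have hG'le : (G'.card : ℝ) ≤ (A'.card : ℝ) * (B'.card : ℝ) := by
    have : G' ⊆ A' ×ˢ B' := by
      intro e he
      rw [hG', Finset.mem_filter] at he
      exact Finset.mem_product.2 he.2
    have := Finset.card_le_card this
    rw [Finset.card_product] at this
    exact_mod_cast this
  have hNA : N ≤ 16 * K3 ^ 2 * (A'.card : ℝ) := by
    have e1 : N * N ≤ 16 * K3 ^ 2 * (A'.card : ℝ) * N := by
      calc N * N = N ^ 2 := by ring
        _ ≤ 16 * K3 ^ 2 * (G'.card : ℝ) := hBS1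
        _ ≤ 16 * K3 ^ 2 * ((A'.card : ℝ) * (B'.card : ℝ)) :=
            mul_le_mul_of_nonneg_left hG'le (by positivity)
        _ ≤ 16 * K3 ^ 2 * ((A'.card : ℝ) * N) :=
            mul_le_mul_of_nonneg_left (mul_le_mul_of_nonneg_left hB'N (by positivity))
              (by positivity)
        _ = 16 * K3 ^ 2 * (A'.card : ℝ) * N := by ring
    exact le_of_mul_le_mul_right e1 hN0
  have hNB : N ≤ 16 * K3 ^ 2 * (B'.card : ℝ) := by
    have e1 : N * N ≤ 16 * K3 ^ 2 * (B'.card : ℝ) * N := by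
      calc N * N = N ^ 2 := by ring
        _ ≤ 16 * K3 ^ 2 * (G'.card : ℝ) := hBS1
        _ ≤ 16 * K3 ^ 2 * ((A'.card : ℝ) * (B'.card : ℝ)) :=
            mul_le_mul_of_nonneg_left hG'le (by positivity)
        _ ≤ 16 * K3 ^ 2 * (N * (B'.card : ℝ)) :=
            mul_le_mul_of_nonneg_left (mul_le_mul_of_nonneg_right hA'N (by positivity))
              (by positivity)
        _ = 16 * K3 ^ 2 * (B'.card : ℝ) * N := by ring
    exact le_of_mul_le_mul_right e1 hN0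
  have hbase : 1 ≤ (10 * (8 * L * E) * L) ^ (3 * D) := by
    refine one_le_pow₀ ?_
    have h1 : 1 ≤ L * E := one_le_mul_of_one_le_of_one_le hL1 hE
    have h2 : 1 ≤ L * E * L := one_le_mul_of_one_le_of_one_le h1 hL1
    nlinarith
  set K4 := 2 ^ 17 * K3 ^ 7 * (10 * (8 * L * E) * L) ^ (3 * D) with hK4
  have h16 : 16 * K3 ^ 2 ≤ K4 := by
    calc 16 * K3 ^ 2 ≤ 2 ^ 17 * K3 ^ 7 :=
          mul_le_mul (by norm_num) (pow_le_pow_right₀ hK31 (by norm_num)) (by positivity)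
            (by norm_num)
      _ = 2 ^ 17 * K3 ^ 7 * 1 := by ring
      _ ≤ K4 := mul_le_mul_of_nonneg_left hbase (by positivity)
  have hK41 : 1 ≤ K4 := by
    have : (1 : ℝ) ≤ K3 ^ 2 := one_le_pow₀ hK31
    linarith
  have hNA4 : N ≤ K4 * (A'.card : ℝ) := hNA.trans (mul_le_mul_of_nonneg_right h16 (by positivity))
  have hNB4 : N ≤ K4 * (B'.card : ℝ) := hNB.trans (mul_le_mul_of_nonneg_right h16 (by positivity))
  -- the ratios
  have key : ∀ z : ℤ, |((z - x : ℤ) : ℝ)| ≤ J → L⁻¹ * J ≤ |((z - x : ℤ) : ℝ)| →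
      L⁻¹ * J ≤ |((z - x - h : ℤ) : ℝ)| → L⁻¹ * J ≤ |((z - x + h : ℤ) : ℝ)| →
      L⁻¹ ≤ |((z - x : ℤ) : ℝ) / h| ∧ |((z - x : ℤ) : ℝ) / h| ≤ L ∧
      L⁻¹ ≤ |1 - ((z - x : ℤ) : ℝ) / h| ∧ L⁻¹ ≤ |1 + ((z - x : ℤ) : ℝ) / h| := by
    intro z hz0 hz1 hz2 hz3
    refine ⟨ratio_ge L J _ _ hL0 hz1 hhJ hh0, ratio_le L J _ _ hL0 hz0 sh hh0, ?_, ?_⟩
    · have e1 : 1 - ((z - x : ℤ) : ℝ) / h = -(((z - x - h : ℤ) : ℝ) / h) := by
        push_cast; field_simp; ring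
      rw [e1, abs_neg]
      exact ratio_ge L J _ _ hL0 hz2 hhJ hh0
    · have e1 : 1 + ((z - x : ℤ) : ℝ) / h = ((z - x + h : ℤ) : ℝ) / h := by
        push_cast; field_simp; ring
      rw [e1]
      exact ratio_ge L J _ _ hL0 hz3 hhJ hh0
  obtain ⟨a1, a2, a3, a4⟩ := key y hyxJ s1 s4 s5
  obtain ⟨c1, c2, c3, c4⟩ := key y' hyxJ' s2 s6 s7
  have hac : L⁻¹ ≤ |((y - x : ℤ) : ℝ) / h - ((y' - x : ℤ) : ℝ) / h| := by
    have e1 : ((y - x : ℤ) : ℝ) / h - ((y' - x : ℤ) : ℝ) / h = ((y - y' : ℤ) : ℝ) / h := by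
      push_cast; field_simp; ring
    rw [e1]
    exact ratio_ge L J _ _ hL0 s3 hhJ hh0
  have hsl : ∀ (t : ℤ) (u : ℝ), (∀ T ∈ TT1, t ∈ S T) → ((Y t).card : ℝ) ≤ N → L⁻¹ ≤ |u| →
      L⁻¹ ≤ |1 - u| → |u| ≤ L + 1 → |1 - u| ≤ L + 1 → u * h = t - x →
      ((sl u A' B').card : ℝ) ≤ K4 * N := by
    intro t u htS hYt hu1 hu2 hu3 hu4 hut
    refine slice hPTH TT1 P V (Y t) (Y x) (Y (x + h)) A' B' G (F x) (F (x + h)) x h t N
      (2 ^ 17 * K3 ^ 7) E L u hN0 (by positivity) hE hL1 hu1 hu2 hu3 hu4 hYt hut ?_ ?_ ?_ ?_ hBS2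
    · intro e he
      obtain ⟨T, hT, hTe⟩ := Finset.mem_image.1 he
      exact ⟨T, hT, hTe⟩
    · intro T hT
      obtain ⟨hTa, hTx, -⟩ := hsub T hT
      exact (hF x T hTa hTx).2
    · intro T hT
      obtain ⟨hTa, -, hTx, -⟩ := hsub T hT
      exact (hF (x + h) T hTa hTx).2
    · intro T hT
      exact ⟨F t T, (hF t T (hsub T hT).1 (htS T hT)).1, (hF t T (hsub T hT).1 (htS T hT)).2⟩
  have hsl2 : ∀ z : ℤ, (∀ T ∈ TT1, z ∈ S T) → (∀ T ∈ TT1, z + h ∈ S T) →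
      ((Y z).card : ℝ) ≤ N → ((Y (z + h)).card : ℝ) ≤ N →
      L⁻¹ ≤ |((z - x : ℤ) : ℝ) / h| → |((z - x : ℤ) : ℝ) / h| ≤ L →
      L⁻¹ ≤ |1 - ((z - x : ℤ) : ℝ) / h| → L⁻¹ ≤ |1 + ((z - x : ℤ) : ℝ) / h| →
      ((sl (((z - x : ℤ) : ℝ) / h) A' B').card : ℝ) ≤ K4 * N ∧
      ((sl (((z - x : ℤ) : ℝ) / h + 1) A' B').card : ℝ) ≤ K4 * N := by
    intro z hz hzh hYz hYzh g1 g2 g3 g4
    set r := ((z - x : ℤ) : ℝ) / h with hr
    have hrh : r * h = z - x := by rw [hr, div_mul_cancel₀ _ hhne]; push_cast; ring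
    have g5 : |1 - r| ≤ L + 1 := by
      rw [abs_le] at g2 ⊢; constructor <;> linarith [g2.1, g2.2]
    have g6 : |r + 1| ≤ L + 1 := by
      rw [abs_le] at g2 ⊢; constructor <;> linarith [g2.1, g2.2]
    refine ⟨hsl z r hz hYz g1 g3 (by linarith) g5 hrh, ?_⟩
    have g7 : |1 - (r + 1)| = |r| := by
      rw [show 1 - (r + 1) = -r by ring, abs_neg]
    refine hsl (z + h) (r + 1) hzh hYzh (by rw [add_comm]; exact g4) (by rw [g7]; exact g1) g6
      (by rw [g7]; linarith) ?_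
    rw [add_mul, hrh]; push_cast; ring
  obtain ⟨sa, sa1⟩ := hsl2 y (fun T hT => (hsub T hT).2.2.2.1)
    (fun T hT => (hsub T hT).2.2.2.2.1) my.2 myh.2 a1 a2 a3 a4
  obtain ⟨sc, sc1⟩ := hsl2 y' (fun T hT => (hsub T hT).2.2.2.2.2.1)
    (fun T hT => (hsub T hT).2.2.2.2.2.2) my'.2 myh'.2 c1 c2 c3 c4
  have hAB := hADD ι A' B' N K4 L _ _ hK41 hL1 hN0 hNA4 hNB4 hA'N hB'N a2 c2 a1 c1 a3 c3 a4 c4
    hac (by
      intro u hu
      simp only [Set.mem_insert_iff, Set.mem_singleton_iff] at hu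
      rcases hu with rfl | rfl | rfl | rfl
      · exact sa
      · exact sa1
      · exact sc
      · exact sc1)
  rw [← hD] at hAB
  -- the subfamily
  set TT' := TT1.filter fun T => F x T ∈ A' ∧ F (x + h) T ∈ B' with hTT'
  have hG'T : (G'.card : ℝ) ≤ (TT'.card : ℝ) := by
    have h1 : G' ⊆ TT'.image fun T => (F x T, F (x + h) T) := by
      intro e he
      rw [hG', Finset.mem_filter] at he
      obtain ⟨he1, he2, he3⟩ := he
      obtain ⟨T, hT, rfl⟩ := Finset.mem_image.1 he1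
      refine Finset.mem_image.2 ⟨T, ?_, rfl⟩
      rw [hTT', Finset.mem_filter]
      exact ⟨hT, he2, he3⟩
    exact Nat.cast_le.2 ((Finset.card_le_card h1).trans Finset.card_image_le)
  obtain ⟨k1, k2⟩ := consts C0 D hC0 κ E μ K hκ hκ1 hE hμ hK
  refine ⟨TT', (Finset.filter_subset _ _).trans (Finset.filter_subset _ _), h, ?_, ?_, ?_⟩
  · rw [← hLi]; exact sh
  · have hGN : (G.card : ℝ) ≤ N ^ 2 := by
      have e1 := Finset.card_le_card hGsub
      rw [Finset.card_product] at e1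
      calc (G.card : ℝ) ≤ ((Y x).card : ℝ) * ((Y (x + h)).card : ℝ) := by exact_mod_cast e1
        _ ≤ N * N := mul_le_mul mx.2 mxh.2 (by positivity) hN0.le
        _ = N ^ 2 := by ring
    have e1 : (TT.card : ℝ) ≤ 2 ^ 9 / κ ^ 6 * (μ * (G.card : ℝ)) := by
      have : κ ^ 6 / 2 ^ 9 * (TT.card : ℝ) ≤ μ * (G.card : ℝ) := hT1.trans hGf
      rw [div_mul_eq_mul_div, le_div_iff₀ hκ60]
      rw [div_mul_eq_mul_div, div_le_iff₀ (by norm_num)] at this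
      linarith
    calc (TT.card : ℝ) ≤ 2 ^ 9 / κ ^ 6 * (μ * (G.card : ℝ)) := e1
      _ ≤ 2 ^ 9 / κ ^ 6 * (μ * (16 * K3 ^ 2 * (TT'.card : ℝ))) := by
          refine mul_le_mul_of_nonneg_left (mul_le_mul_of_nonneg_left ?_ (by linarith))
            (by positivity)
          exact (hGN.trans hBS1).trans (mul_le_mul_of_nonneg_left hG'T (by positivity))
      _ = 2 ^ 9 / κ ^ 6 * μ * (16 * K3 ^ 2) * (TT'.card : ℝ) := by ring
      _ ≤ _ := mul_le_mul_of_nonneg_right k1 (by positivity)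
  · have e1 : (((TT'.image fun T i => ⌊(h : ℝ) * V T i⌋).card : ℕ) : ℝ) ≤
        (7 * E) ^ D * ((B' - A').card : ℝ) := by
      have hfl := Int.floor_le (2 * E + 1)
      refine cover _ _ (-⌊2 * E + 1⌋) ⌊2 * E + 1⌋ (7 * E) (by positivity)
        (by push_cast; linarith) ?_
      intro s hs
      obtain ⟨T, hT, rfl⟩ := Finset.mem_image.1 hs
      rw [hTT', Finset.mem_filter] at hT
      obtain ⟨hT1', hTA, hTB⟩ := hT
      obtain ⟨hTa, hTx, hTxh, -⟩ := hsub T hT1'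
      refine ⟨F (x + h) T - F x T, Finset.sub_mem_sub hTB hTA, fun i => ?_⟩
      have f1 := (hF x T hTa hTx).2 i
      have f2 := (hF (x + h) T hTa hTxh).2 i
      have f3 := Int.floor_le ((h : ℝ) * V T i)
      have f4 := Int.lt_floor_add_one ((h : ℝ) * V T i)
      have f5 : (((x + h : ℤ) : ℝ)) * V T i = x * V T i + h * V T i := by push_cast; ring
      rw [f5] at f2
      rw [abs_le] at f1 f2
      simp only [Pi.sub_apply]
      constructor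
      · have : -(⌊(h : ℝ) * V T i⌋ - (F (x + h) T i - F x T i)) ≤ ⌊2 * E + 1⌋ := by
          rw [Int.le_floor]
          push_cast
          linarith [f1.1, f1.2, f2.1, f2.2]
        omega
      · rw [Int.le_floor]
        push_cast
        linarith [f1.1, f1.2, f2.1, f2.2]
    rw [csub B' A'] at e1
    calc (((TT'.image fun T i => ⌊(h : ℝ) * V T i⌋).card : ℕ) : ℝ)
        ≤ (7 * E) ^ D * ((A' - B').card : ℝ) := e1
      _ ≤ (7 * E) ^ D * ((K4 * ((C0 : ℝ) * L) ^ D) ^ C0 * N) :=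
          mul_le_mul_of_nonneg_left hAB (by positivity)
      _ = (7 * E) ^ D * (K4 * ((C0 : ℝ) * L) ^ D) ^ C0 * (2 ^ 12 / κ ^ 6) * Θ := by
          rw [hN]; ring
      _ ≤ _ := mul_le_mul_of_nonneg_right k2 (by linarith)

end Pool.Agent.H95.HD
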