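import Pool.Agent.H82.HD.TC

/-!
MP_ee74d2_an, theorem HD: RAT, the approximate multiplier of two sets with the same mate.
-/

set_option autoImplicit false

namespace Pool.Agent.H95.HD

open Pool.Agent.H82.HD

open scoped Pointwise

section

variable {ι : Type} [Fintype ι]

open scoped Classical in
lemma csub (A B : Finset (ι → ℤ)) : (A - B).card = (B - A).card := by
  rw [← neg_sub B A, Finset.card_neg]

open scoped Classical in
/-- covering by boxes -/
lemma cover (S T : Finset (ι → ℤ)) (a b : ℤ) (M : ℝ) (hM0 : 0 ≤ M)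
    (hM : (b : ℝ) + 1 - a ≤ M)
    (h : ∀ s ∈ S, ∃ t ∈ T, ∀ i, a ≤ s i - t i ∧ s i - t i ≤ b) :
    (S.card : ℝ) ≤ M ^ Fintype.card ι * (T.card : ℝ) := by
  set F : Finset (ι → ℤ) := Fintype.piFinset fun _ => Finset.Icc a b with hF
  have hsub : S ⊆ (F ×ˢ T).image fun p => p.1 + p.2 := by
    intro s hs
    obtain ⟨t, ht, hst⟩ := h s hs
    refine Finset.mem_image.2 ⟨(s - t, t), Finset.mem_product.2 ⟨?_, ht⟩, by simp⟩
    rw [hF, Fintype.mem_piFinset]
    intro i
    rw [Finset.mem_Icc]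
    exact hst i
  have hcF : F.card = (b + 1 - a).toNat ^ Fintype.card ι := by
    rw [hF, Fintype.card_piFinset]
    simp [Finset.prod_const, Finset.card_univ]
  have h1 : S.card ≤ F.card * T.card := by
    calc S.card ≤ ((F ×ˢ T).image fun p => p.1 + p.2).card := Finset.card_le_card hsub
      _ ≤ (F ×ˢ T).card := Finset.card_image_le
      _ = F.card * T.card := Finset.card_product _ _
  have h2 : (F.card : ℝ) ≤ M ^ Fintype.card ι := by
    rw [hcF]
    push_cast
    refine pow_le_pow_left₀ (by positivity) ?_ _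
    rcases le_total 0 (b + 1 - a) with h0 | h0
    · have : (((b + 1 - a).toNat : ℤ) : ℝ) = ((b + 1 - a : ℤ) : ℝ) := by
        rw [Int.toNat_of_nonneg h0]
      have h3 : (((b + 1 - a).toNat : ℕ) : ℝ) = ((b + 1 - a : ℤ) : ℝ) := by
        rw [← this]; norm_cast
      rw [h3]; push_cast; exact hM
    · rw [Int.toNat_of_nonpos h0]; simpa using hM0
  calc (S.card : ℝ) ≤ (F.card : ℝ) * (T.card : ℝ) := by exact_mod_cast h1
    _ ≤ M ^ Fintype.card ι * (T.card : ℝ) := mul_le_mul_of_nonneg_right h2 (by positivity)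

open scoped Classical in
lemma fl_add_le (c : ℝ) (X Y : Finset (ι → ℤ)) :
    ((fl c (X + Y)).card : ℝ) ≤ 2 ^ Fintype.card ι * ((fl c X + fl c Y).card : ℝ) := by
  refine cover _ _ 0 1 2 (by norm_num) (by norm_num) ?_
  intro s hs
  obtain ⟨z, hz, rfl⟩ := Finset.mem_image.1 hs
  obtain ⟨x, hx, y, hy, rfl⟩ := Finset.mem_add.1 hz
  refine ⟨(fun i => ⌊c * (x i : ℝ)⌋) + fun i => ⌊c * (y i : ℝ)⌋,
    Finset.add_mem_add (Finset.mem_image_of_mem _ hx) (Finset.mem_image_of_mem _ hy), ?_⟩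
  intro i
  have e : c * ((x i + y i : ℤ) : ℝ) = c * (x i : ℝ) + c * (y i : ℝ) := by
    push_cast; ring
  have h1 := Int.le_floor_add (c * (x i : ℝ)) (c * (y i : ℝ))
  have h2 := Int.le_floor_add_floor (c * (x i : ℝ)) (c * (y i : ℝ))
  simp only [Pi.add_apply, e]
  constructor <;> omega

open scoped Classical in
lemma fl_sub_le (c : ℝ) (X Y : Finset (ι → ℤ)) :
    ((fl c (X - Y)).card : ℝ) ≤ 2 ^ Fintype.card ι * ((fl c X - fl c Y).card : ℝ) := by
  refine cover _ _ (-1) 0 2 (by norm_num) (by norm_num) ?_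
  intro s hs
  obtain ⟨z, hz, rfl⟩ := Finset.mem_image.1 hs
  obtain ⟨x, hx, y, hy, rfl⟩ := Finset.mem_sub.1 hz
  refine ⟨(fun i => ⌊c * (x i : ℝ)⌋) - fun i => ⌊c * (y i : ℝ)⌋,
    Finset.sub_mem_sub (Finset.mem_image_of_mem _ hx) (Finset.mem_image_of_mem _ hy), ?_⟩
  intro i
  have e : c * ((x i - y i : ℤ) : ℝ) = c * (x i : ℝ) - c * (y i : ℝ) := by
    push_cast; ring
  have h1 := Int.le_floor_add (c * (x i : ℝ) - c * (y i : ℝ)) (c * (y i : ℝ))
  have h2 := Int.le_floor_add_floor (c * (x i : ℝ) - c * (y i : ℝ)) (c * (y i : ℝ))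
  rw [sub_add_cancel] at h1 h2
  simp only [Pi.sub_apply, e]
  constructor <;> omega

open scoped Classical in
lemma fl_comp_le (c r L : ℝ) (hc : |c| ≤ L) (X B : Finset (ι → ℤ)) :
    ((X + fl c (fl r B)).card : ℝ) ≤
      (2 * L + 4) ^ Fintype.card ι * ((X + fl (c * r) B).card : ℝ) := by
  have hL0 : 0 ≤ L := (abs_nonneg c).trans hc
  have hfl : (⌊L⌋ : ℝ) ≤ L := Int.floor_le L
  refine cover _ _ (-(⌊L⌋ + 1)) (⌊L⌋ + 1) (2 * L + 4) (by positivity)
    (by push_cast; linarith) ?_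
  intro s hs
  obtain ⟨x, hx, z, hz, rfl⟩ := Finset.mem_add.1 hs
  obtain ⟨w, hw, rfl⟩ := Finset.mem_image.1 hz
  obtain ⟨b, hb, rfl⟩ := Finset.mem_image.1 hw
  refine ⟨x + fun i => ⌊c * r * (b i : ℝ)⌋,
    Finset.add_mem_add hx (Finset.mem_image_of_mem _ hb), ?_⟩
  intro i
  simp only [Pi.add_apply]
  have e : x i + ⌊c * (⌊r * (b i : ℝ)⌋ : ℝ)⌋ - (x i + ⌊c * r * (b i : ℝ)⌋) =
      ⌊c * (⌊r * (b i : ℝ)⌋ : ℝ)⌋ - ⌊c * r * (b i : ℝ)⌋ := by ring
  rw [e]
  have h1 := Int.floor_le (r * (b i : ℝ))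
  have h2 := Int.lt_floor_add_one (r * (b i : ℝ))
  have h3 := Int.floor_le (c * (⌊r * (b i : ℝ)⌋ : ℝ))
  have h4 := Int.lt_floor_add_one (c * (⌊r * (b i : ℝ)⌋ : ℝ))
  have h5 := Int.floor_le (c * r * (b i : ℝ))
  have h6 := Int.lt_floor_add_one (c * r * (b i : ℝ))
  have h7 : |c * (⌊r * (b i : ℝ)⌋ : ℝ) - c * r * (b i : ℝ)| ≤ L := by
    have : c * (⌊r * (b i : ℝ)⌋ : ℝ) - c * r * (b i : ℝ) =
        c * ((⌊r * (b i : ℝ)⌋ : ℝ) - r * (b i : ℝ)) := by ring
    rw [this, abs_mul]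
    have h8 : |(⌊r * (b i : ℝ)⌋ : ℝ) - r * (b i : ℝ)| ≤ 1 := by
      rw [abs_le]; constructor <;> linarith
    calc |c| * |(⌊r * (b i : ℝ)⌋ : ℝ) - r * (b i : ℝ)| ≤ L * 1 :=
          mul_le_mul hc h8 (abs_nonneg _) hL0
      _ = L := mul_one L
  rw [abs_le] at h7
  have h9 := Int.lt_floor_add_one L
  have h10 : ((⌊c * (⌊r * (b i : ℝ)⌋ : ℝ)⌋ - ⌊c * r * (b i : ℝ)⌋ : ℤ) : ℝ) <
      ((⌊L⌋ + 2 : ℤ) : ℝ) := by
    push_cast; linarith [h7.2]
  have h11 : ((-(⌊L⌋ + 2) : ℤ) : ℝ) <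
      ((⌊c * (⌊r * (b i : ℝ)⌋ : ℝ)⌋ - ⌊c * r * (b i : ℝ)⌋ : ℤ) : ℝ) := by
    push_cast; linarith [h7.1]
  have h12 := Int.cast_lt.1 h10
  have h13 := Int.cast_lt.1 h11
  constructor <;> omega

end

lemma big (K L : ℝ) (D : ℕ) (hK : 1 ≤ K) (hL : 1 ≤ L) (a m : ℕ) (ha : a ≤ 200)
    (hm : m ≤ 200) (Z : ℝ) (hZ0 : 0 ≤ Z) (hZ : Z ≤ (200 * L) ^ m) :
    K ^ a * Z ^ D ≤ (K * (((200 : ℕ) : ℝ) * L) ^ D) ^ 200 := by
  have h1 : K ^ a ≤ K ^ 200 := pow_le_pow_right₀ hK ha
  have hCL : (1 : ℝ) ≤ (((200 : ℕ) : ℝ) * L) ^ D := by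
    refine one_le_pow₀ ?_
    push_cast; linarith
  have h2 : Z ^ D ≤ ((((200 : ℕ) : ℝ) * L) ^ D) ^ 200 := by
    calc Z ^ D ≤ ((200 * L) ^ m) ^ D := pow_le_pow_left₀ hZ0 hZ D
      _ = ((((200 : ℕ) : ℝ) * L) ^ D) ^ m := by
          rw [← pow_mul, ← pow_mul, mul_comm m D]; norm_num
      _ ≤ ((((200 : ℕ) : ℝ) * L) ^ D) ^ 200 := pow_le_pow_right₀ hCL hm
  rw [mul_pow]
  exact mul_le_mul h1 h2 (by positivity) (by positivity)

open scoped Classical in
/-- Ruzsa step: if `|P| |A| ≤ x N · y N` and `N ≤ K |A|` then `|P| ≤ K x y N` -/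
lemma step (p a N K x : ℝ) (hp : 0 ≤ p) (hN : 0 < N) (h1 : N ≤ K * a)
    (h2 : p * a ≤ x * N ^ 2) (hK : 0 ≤ K) : p ≤ K * x * N := by
  have h3 : p * N ≤ K * x * N * N := by
    calc p * N ≤ p * (K * a) := mul_le_mul_of_nonneg_left h1 hp
      _ = K * (p * a) := by ring
      _ ≤ K * (x * N ^ 2) := mul_le_mul_of_nonneg_left h2 hK
      _ = K * x * N * N := by ring
  exact le_of_mul_le_mul_right h3 hN

open scoped Classical in
theorem pf_RAT (hFLB : T_FLB) : T_RAT := by
  refine ⟨200, by norm_num, ?_⟩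
  intro ι _ A B N K L hK hL hN hNA hNB
  set D := Fintype.card ι with hD
  have hK0 : 0 < K := by linarith
  have hL0 : 0 < L := by linarith
  refine ⟨?_, ?_⟩
  · intro u hu1 hu2 hv1 hv2 hsl
    have hLi : 0 < L⁻¹ := inv_pos.2 hL0
    have hc0 : (1 - u) ≠ 0 := by
      intro h0; rw [h0, abs_zero] at hv1; linarith
    have hcp : 0 < |1 - u| := lt_of_lt_of_le hLi hv1
    set r := u / (1 - u) with hr
    have hcr : (1 - u) * r = u := by rw [hr]; field_simp
    have hL2 : (1 : ℝ) ≤ L ^ 2 := one_le_pow₀ hL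
    have hra : |r| = |u| / |1 - u| := by rw [hr, abs_div]
    have hr1 : (L ^ 2)⁻¹ ≤ |r| := by
      rw [hra, le_div_iff₀ hcp]
      calc (L ^ 2)⁻¹ * |1 - u| ≤ (L ^ 2)⁻¹ * L :=
            mul_le_mul_of_nonneg_left hv2 (by positivity)
        _ = L⁻¹ := by field_simp
        _ ≤ |u| := hu1
    have hr2 : |r| ≤ L ^ 2 := by
      rw [hra, div_le_iff₀ hcp]
      calc |u| ≤ L := hu2
        _ = L ^ 2 * L⁻¹ := by field_simp
        _ ≤ L ^ 2 * |1 - u| := mul_le_mul_of_nonneg_left hv1 (by positivity)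
    -- step 1
    have s1 : ((fl (1 - u) A + fl u B).card : ℝ) ≤ 2 ^ D * (K * N) := by
      have := (hFLB ι A B (1 - u) u L hL hv1 hv2).2.2.2.2.2.2.2.1
      exact this.trans (mul_le_mul_of_nonneg_left hsl (by positivity))
    -- step 2
    have s2 : ((A + fl r B).card : ℝ) ≤ K * (72 * L ^ 2) ^ D * N := by
      have e1 := (hFLB ι (A + fl r B) B (1 - u) u L hL hv1 hv2).1
      have e2 := fl_add_le (1 - u) A (fl r B)
      have e3 := fl_comp_le (1 - u) r L hv2 (fl (1 - u) A) B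
      rw [hcr] at e3
      rw [← hD] at e1 e2 e3
      calc ((A + fl r B).card : ℝ) ≤ (L + 2) ^ D * ((fl (1 - u) (A + fl r B)).card : ℝ) := e1
        _ ≤ (L + 2) ^ D * (2 ^ D * ((fl (1 - u) A + fl (1 - u) (fl r B)).card : ℝ)) :=
            mul_le_mul_of_nonneg_left e2 (by positivity)
        _ ≤ (L + 2) ^ D * (2 ^ D * ((2 * L + 4) ^ D * (2 ^ D * (K * N)))) := by
            refine mul_le_mul_of_nonneg_left (mul_le_mul_of_nonneg_left
              (e3.trans (mul_le_mul_of_nonneg_left s1 (by positivity))) (by positivity))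
              (by positivity)
        _ = K * ((L + 2) * 2 * (2 * L + 4) * 2) ^ D * N := by
            rw [mul_pow, mul_pow, mul_pow]; ring
        _ ≤ K * (72 * L ^ 2) ^ D * N := by
            refine mul_le_mul_of_nonneg_right (mul_le_mul_of_nonneg_left
              (pow_le_pow_left₀ (by positivity) ?_ _) hK0.le) hN.le
            nlinarith
    have s3 : ((A - fl (-r) B).card : ℝ) ≤ K * (144 * L ^ 2) ^ D * N := by
      have e1 := (hFLB ι A B r u (L ^ 2) hL2 hr1 hr2).2.2.2.2.2.2.1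
      rw [← hD] at e1
      calc ((A - fl (-r) B).card : ℝ) ≤ 2 ^ D * ((A + fl r B).card : ℝ) := e1
        _ ≤ 2 ^ D * (K * (72 * L ^ 2) ^ D * N) := mul_le_mul_of_nonneg_left s2 (by positivity)
        _ = K * (2 * (72 * L ^ 2)) ^ D * N := by rw [mul_pow 2 (72 * L ^ 2)]; ring
        _ = K * (144 * L ^ 2) ^ D * N := by ring_nf
    constructor
    · refine s3.trans (mul_le_mul_of_nonneg_right ?_ hN.le)
      have := big K L D hK hL 1 2 (by norm_num) (by norm_num) (144 * L ^ 2) (by positivity)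
        (by rw [mul_pow]; nlinarith [sq_nonneg L])
      simpa using this
    · -- B - B
      set Y := fl r B with hY
      have e0 := Finset.ruzsa_triangle_inequality_sub_add_add Y A Y
      have e0' : ((Y - Y).card : ℝ) * (A.card : ℝ) ≤
          ((Y + A).card : ℝ) * ((Y + A).card : ℝ) := by exact_mod_cast e0
      rw [add_comm Y A] at e0'
      have e1 : ((Y - Y).card : ℝ) * (A.card : ℝ) ≤
          (K ^ 2 * ((72 * L ^ 2) ^ D) ^ 2) * N ^ 2 := by
        refine e0'.trans ?_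
        calc ((A + Y).card : ℝ) * ((A + Y).card : ℝ) ≤
              (K * (72 * L ^ 2) ^ D * N) * (K * (72 * L ^ 2) ^ D * N) :=
              mul_le_mul s2 s2 (by positivity) (by positivity)
          _ = (K ^ 2 * ((72 * L ^ 2) ^ D) ^ 2) * N ^ 2 := by ring
      have e2 := step _ _ N K _ (by positivity) hN hNA e1 hK0.le
      have e3 := (hFLB ι (B - B) B r u (L ^ 2) hL2 hr1 hr2).1
      have e4 := fl_sub_le r B B
      rw [← hD] at e3 e4
      have e5 : ((B - B).card : ℝ) ≤ (K ^ 3 * ((6 * 72 ^ 2) * L ^ 6) ^ D) * N := by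
        calc ((B - B).card : ℝ) ≤ (L ^ 2 + 2) ^ D * ((fl r (B - B)).card : ℝ) := e3
          _ ≤ (L ^ 2 + 2) ^ D * (2 ^ D * ((Y - Y).card : ℝ)) :=
              mul_le_mul_of_nonneg_left e4 (by positivity)
          _ ≤ (L ^ 2 + 2) ^ D * (2 ^ D * (K * (K ^ 2 * ((72 * L ^ 2) ^ D) ^ 2) * N)) :=
              mul_le_mul_of_nonneg_left (mul_le_mul_of_nonneg_left e2 (by positivity))
                (by positivity)
          _ = (K ^ 3 * ((L ^ 2 + 2) * 2 * (72 * L ^ 2) ^ 2) ^ D) * N := by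
              rw [mul_pow _ ((72 * L ^ 2) ^ 2), mul_pow _ 2, ← pow_mul, ← pow_mul,
                mul_comm 2 D]
              ring
          _ ≤ (K ^ 3 * ((6 * 72 ^ 2) * L ^ 6) ^ D) * N := by
              refine mul_le_mul_of_nonneg_right (mul_le_mul_of_nonneg_left
                (pow_le_pow_left₀ (by positivity) ?_ _) (by positivity)) hN.le
              have h3 : (L ^ 2 + 2) * 2 ≤ 6 * L ^ 2 := by linarith
              calc (L ^ 2 + 2) * 2 * (72 * L ^ 2) ^ 2 ≤ 6 * L ^ 2 * (72 * L ^ 2) ^ 2 :=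
                    mul_le_mul_of_nonneg_right h3 (by positivity)
                _ = (6 * 72 ^ 2) * L ^ 6 := by ring
      refine e5.trans (mul_le_mul_of_nonneg_right ?_ hN.le)
      refine big K L D hK hL 3 6 (by norm_num) (by norm_num) _ (by positivity) ?_
      rw [mul_pow 200 L 6]
      exact mul_le_mul_of_nonneg_right (by norm_num) (by positivity)
  · intro r s hr1 hr2 hs1 hs2 hAr
    refine ⟨?_, ?_⟩
    · intro hAs
      have hr0 : r ≠ 0 := by
        intro h0; rw [h0, abs_zero] at hr1; linarith [inv_pos.2 hL0]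
      have hrs : r * (s / r) = s := by field_simp
      have e0 := Finset.ruzsa_triangle_inequality_sub_sub_sub (fl r B) A (fl s B)
      have e0' : ((fl r B - fl s B).card : ℝ) * (A.card : ℝ) ≤
          ((fl r B - A).card : ℝ) * ((fl s B - A).card : ℝ) := by exact_mod_cast e0
      rw [csub (fl r B) A, csub (fl s B) A] at e0'
      have e1 : ((fl r B - fl s B).card : ℝ) * (A.card : ℝ) ≤ K ^ 2 * N ^ 2 := by
        refine e0'.trans ?_
        calc ((A - fl r B).card : ℝ) * ((A - fl s B).card : ℝ) ≤ (K * N) * (K * N) :=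
              mul_le_mul hAr hAs (by positivity) (by positivity)
          _ = K ^ 2 * N ^ 2 := by ring
      have e2 := step _ _ N K _ (by positivity) hN hNA e1 hK0.le
      have e3 := (hFLB ι (B - fl (s / r) B) B r (s / r) L hL hr1 hr2).1
      have e4 := fl_sub_le r B (fl (s / r) B)
      have e5 := (hFLB ι (fl r B) B r (s / r) L hL hr1 hr2).2.2.2.2.1
      rw [hrs] at e5
      rw [← hD] at e3 e4 e5
      have e6 : ((B - fl (s / r) B).card : ℝ) ≤ (K ^ 3 * (36 * L ^ 2) ^ D) * N := by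
        calc ((B - fl (s / r) B).card : ℝ) ≤
              (L + 2) ^ D * ((fl r (B - fl (s / r) B)).card : ℝ) := e3
          _ ≤ (L + 2) ^ D * (2 ^ D * ((fl r B - fl r (fl (s / r) B)).card : ℝ)) :=
              mul_le_mul_of_nonneg_left e4 (by positivity)
          _ ≤ (L + 2) ^ D * (2 ^ D * ((2 * L + 4) ^ D * (K * K ^ 2 * N))) :=
              mul_le_mul_of_nonneg_left (mul_le_mul_of_nonneg_left
                (e5.trans (mul_le_mul_of_nonneg_left e2 (by positivity))) (by positivity))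
                (by positivity)
          _ = (K ^ 3 * ((L + 2) * 2 * (2 * L + 4)) ^ D) * N := by
              rw [mul_pow _ (2 * L + 4), mul_pow _ 2]; ring
          _ ≤ (K ^ 3 * (36 * L ^ 2) ^ D) * N := by
              refine mul_le_mul_of_nonneg_right (mul_le_mul_of_nonneg_left
                (pow_le_pow_left₀ (by positivity) ?_ _) (by positivity)) hN.le
              nlinarith
      unfold Qm
      refine e6.trans (mul_le_mul_of_nonneg_right ?_ hN.le)
      refine big K L D hK hL 3 2 (by norm_num) (by norm_num) _ (by positivity) ?_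
      rw [mul_pow 200 L 2]
      exact mul_le_mul_of_nonneg_right (by norm_num) (by positivity)
    · intro hq
      unfold Qm at hq
      have e0 := Finset.ruzsa_triangle_inequality_sub_sub_sub A (fl r B) B
      have e0' : ((A - B).card : ℝ) * ((fl r B).card : ℝ) ≤
          ((A - fl r B).card : ℝ) * ((B - fl r B).card : ℝ) := by exact_mod_cast e0
      have e1 : ((A - B).card : ℝ) * ((fl r B).card : ℝ) ≤ K ^ 2 * N ^ 2 := by
        refine e0'.trans ?_
        calc ((A - fl r B).card : ℝ) * ((B - fl r B).card : ℝ) ≤ (K * N) * (K * N) :=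
              mul_le_mul hAr hq (by positivity) (by positivity)
          _ = K ^ 2 * N ^ 2 := by ring
      have e2 := (hFLB ι B B r s L hL hr1 hr2).1
      rw [← hD] at e2
      have e3 : N ≤ (K * (L + 2) ^ D) * ((fl r B).card : ℝ) := by
        calc N ≤ K * (B.card : ℝ) := hNB
          _ ≤ K * ((L + 2) ^ D * ((fl r B).card : ℝ)) := mul_le_mul_of_nonneg_left e2 hK0.le
          _ = (K * (L + 2) ^ D) * ((fl r B).card : ℝ) := by ring
      have e4 := step _ _ N _ _ (by positivity) hN e3 e1 (by positivity)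
      refine e4.trans (mul_le_mul_of_nonneg_right ?_ hN.le)
      have e5 := big K L D hK hL 3 1 (by norm_num) (by norm_num) (L + 2) (by positivity)
        (by linarith)
      calc K * (L + 2) ^ D * K ^ 2 = K ^ 3 * (L + 2) ^ D := by ring
        _ ≤ _ := e5

end Pool.Agent.H95.HD
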